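import Pool.Agent.T9h72.KU.Spec

/-!
# JOB OPT: the optimality inequality
-/

set_option autoImplicit false

namespace Pool.Agent.T9h61.KU

open MeasureTheory ProbabilityTheory Set Filter Topology Pool.Agent.R190.KR Pool.Agent.T9h72.KU

/-- comparison with a line -/
theorem line_le {μ : Measure ℝ} (h : SymParent μ) {φ : ℝ → ℝ} (hφ : Measurable φ) {B : ℝ}
    (hB : ∀ x ∈ Icc (0 : ℝ) 1, |φ x| ≤ B) (hodd : ∀ x ∈ Icc (0 : ℝ) 1, φ (1 - x) = -φ x)
    (p q : ℝ)
    (key : ∀ t, mean μ ≤ t → (t - mean μ) * φ (cdf μ t) ≤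
      (p + q * (cdf μ t - 1 / 2)) * φ (cdf μ t)) :
    ∫ t, (t - mean μ) * φ (cdf μ t) ∂μ ≤
      2 * (p * (∫ x in (1 / 2 : ℝ)..1, φ x) + q * ∫ x in (1 / 2 : ℝ)..1, φ x * (x - 1 / 2)) := by
  have := h.prob
  have hB0 : 0 ≤ B := (abs_nonneg _).trans (hB 0 ⟨le_rfl, zero_le_one⟩)
  obtain ⟨θ, hθ⟩ : ∃ θ : ℝ → ℝ, θ = fun x => (p + q * (x - 1 / 2)) * φ x := ⟨_, rfl⟩
  have hθm : Measurable θ := by
    rw [hθ]
    exact (by fun_prop : Measurable fun x : ℝ => p + q * (x - 1 / 2)).mul hφ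
  have hθB : ∀ x ∈ Icc (0 : ℝ) 1, |θ x| ≤ (|p| + |q|) * B := by
    intro x hx
    rw [hθ]
    dsimp only
    rw [abs_mul]
    refine mul_le_mul ?_ (hB x hx) (abs_nonneg _) (by positivity)
    refine (abs_add_le _ _).trans ?_
    rw [abs_mul]
    have h1 : |x - 1 / 2| ≤ 1 := by
      rw [abs_le]
      constructor <;> linarith [hx.1, hx.2]
    nlinarith [abs_nonneg q]
  obtain ⟨ψ, hψ⟩ : ∃ ψ : ℝ → ℝ, ψ = fun x => if 1 / 2 ≤ x then θ x else θ (1 - x) := ⟨_, rfl⟩
  have hψm : Measurable ψ := by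
    rw [hψ]
    exact Measurable.ite measurableSet_Ici hθm (hθm.comp (by fun_prop))
  have hψB : ∀ x ∈ Icc (0 : ℝ) 1, |ψ x| ≤ (|p| + |q|) * B := by
    intro x hx
    rw [hψ]
    dsimp only
    split_ifs
    · exact hθB x hx
    · exact hθB _ ⟨by linarith [hx.2], by linarith [hx.1]⟩
  have hψ0 : ∀ x ∈ Icc (0 : ℝ) 1, x ≤ 1 / 2 → ψ x = θ (1 - x) := by
    intro x hx hx2
    rw [hψ]
    dsimp only
    split_ifs with h5
    · have : x = 1 / 2 := le_antisymm hx2 h5
      rw [this]; norm_num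
    · rfl
  have pt : ∀ t, (t - mean μ) * φ (cdf μ t) ≤ ψ (cdf μ t) := by
    intro t
    rcases le_total (mean μ) t with ht | ht
    · have hF : 1 / 2 ≤ cdf μ t := by rw [← h.cdf_mean]; exact monotone_cdf μ ht
      have : ψ (cdf μ t) = θ (cdf μ t) := by rw [hψ]; simp only [if_pos hF]
      rw [this, hθ]
      exact key t ht
    · have hF : cdf μ t ≤ 1 / 2 := by rw [← h.cdf_mean]; exact monotone_cdf μ ht
      have hmem : cdf μ t ∈ Icc (0 : ℝ) 1 := ⟨cdf_nonneg μ t, cdf_le_one μ t⟩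
      rw [hψ0 _ hmem hF]
      have h5 := key (2 * mean μ - t) (by linarith)
      rw [h.reflect] at h5
      have h6 := hodd _ hmem
      have h7 : (2 * mean μ - t - mean μ) * φ (1 - cdf μ t) = (t - mean μ) * φ (cdf μ t) := by
        rw [h6]; ring
      rw [h7] at h5
      rw [hθ]
      exact h5
  have h4 : ∫ t, (t - mean μ) * φ (cdf μ t) ∂μ ≤ ∫ t, ψ (cdf μ t) ∂μ :=
    integral_mono (h.int_mul hφ hB) (h.int_comp hψm hψB) pt
  refine h4.trans ?_
  rw [integral_comp_cdf h.cont hψm]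
  rw [← integral_Ioc_eq_integral_Ioo, ← intervalIntegral.integral_of_le zero_le_one]
  have hint : ∀ {f : ℝ → ℝ} {M : ℝ}, Measurable f → (∀ x ∈ Icc (0 : ℝ) 1, |f x| ≤ M) →
      ∀ a b : ℝ, 0 ≤ a → a ≤ b → b ≤ 1 → IntervalIntegrable f volume a b := by
    intro f M hf hM a b h0 h5 h6
    rw [intervalIntegrable_iff_integrableOn_Ioc_of_le h5]
    apply Measure.integrableOn_of_bounded (M := M) (by simp) hf.aestronglyMeasurable
    filter_upwards [ae_restrict_mem measurableSet_Ioc] with x hx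
    exact hM x ⟨by linarith [hx.1], by linarith [hx.2]⟩
  rw [← intervalIntegral.integral_add_adjacent_intervals
    (hint hψm hψB 0 (1 / 2) le_rfl (by norm_num) (by norm_num))
    (hint hψm hψB (1 / 2) 1 (by norm_num) (by norm_num) le_rfl)]
  have e1 : ∫ x in (0 : ℝ)..(1 / 2), ψ x = ∫ x in (1 / 2 : ℝ)..1, θ x := by
    have e2 : ∫ x in (0 : ℝ)..(1 / 2), ψ x = ∫ x in (0 : ℝ)..(1 / 2), θ (1 - x) := by
      apply intervalIntegral.integral_congr
      intro x hx
      rw [uIcc_of_le (by norm_num)] at hx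
      exact hψ0 x ⟨hx.1, by linarith [hx.2]⟩ hx.2
    rw [e2, intervalIntegral.integral_comp_sub_left (fun x => θ x) 1]
    norm_num
  have e3 : ∫ x in (1 / 2 : ℝ)..1, ψ x = ∫ x in (1 / 2 : ℝ)..1, θ x := by
    apply intervalIntegral.integral_congr
    intro x hx
    rw [uIcc_of_le (by norm_num)] at hx
    rw [hψ]
    simp only [if_pos hx.1]
  have e4 : ∫ x in (1 / 2 : ℝ)..1, θ x = p * (∫ x in (1 / 2 : ℝ)..1, φ x) +
      q * ∫ x in (1 / 2 : ℝ)..1, φ x * (x - 1 / 2) := by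
    have i1 : IntervalIntegrable φ volume (1 / 2) 1 :=
      hint hφ hB (1 / 2) 1 (by norm_num) (by norm_num) le_rfl
    have i2 : IntervalIntegrable (fun x => φ x * (x - 1 / 2)) volume (1 / 2) 1 := by
      refine hint (f := fun x => φ x * (x - 1 / 2)) (M := B) (hφ.mul (by fun_prop)) ?_
        (1 / 2) 1 (by norm_num) (by norm_num) le_rfl
      intro x hx
      rw [abs_mul]
      have h1 : |x - 1 / 2| ≤ 1 := by
        rw [abs_le]
        constructor <;> linarith [hx.1, hx.2]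
      calc |φ x| * |x - 1 / 2| ≤ B * 1 := mul_le_mul (hB x hx) h1 (abs_nonneg _) hB0
        _ = B := mul_one B
    rw [← intervalIntegral.integral_const_mul, ← intervalIntegral.integral_const_mul,
      ← intervalIntegral.integral_add (i1.const_mul p) (i2.const_mul q)]
    apply intervalIntegral.integral_congr
    intro x _
    rw [hθ]
    dsimp only
    ring
  rw [e1, e3, e4]
  linarith

theorem opt (hC : S_CONC) : S_OPT := by
  intro μ hU φ hφ B hB hodd c1 c2 h1 h12 h2 s1 s2 s3 h0 hm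
  have h := hU.sym
  have hconc := hC μ hU
  have hp := h.prob
  have hF0 : ∀ t, mean μ ≤ t → 1 / 2 ≤ cdf μ t := fun t ht => by
    rw [← h.cdf_mean]; exact monotone_cdf μ ht
  rcases eq_or_lt_of_le h12 with h12' | h12'
  · -- `φ ≤ 0` on `[1/2, 1]`
    have hn : ∀ x ∈ Icc (1 / 2 : ℝ) 1, φ x ≤ 0 := by
      intro x hx
      rcases le_total x c1 with h5 | h5
      · exact s1 x ⟨hx.1, h5⟩
      · exact s3 x ⟨by rw [← h12']; exact h5, hx.2⟩
    have := line_le h hφ hB hodd 0 0 (fun t ht => by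
      have h5 := hn (cdf μ t) ⟨hF0 t ht, cdf_le_one μ t⟩
      nlinarith)
    simpa using this
  · obtain ⟨t1, ht1, hF1, hz⟩ : ∃ t1, mean μ ≤ t1 ∧ cdf μ t1 = c1 ∧ (c1 = 1 / 2 → t1 = mean μ) := by
      by_cases hc : c1 = 1 / 2
      · exact ⟨mean μ, le_rfl, by rw [h.cdf_mean, hc], fun _ => rfl⟩
      · obtain ⟨t, ht, hFt⟩ := h.exists_cdf_eq (c := c1) ⟨h1, by linarith⟩
        exact ⟨t, ht, hFt, fun h5 => absurd h5 hc⟩
    obtain ⟨t2, ht2, hF2⟩ := h.exists_cdf_eq (c := c2) ⟨by linarith, h2⟩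
    have ht12 : t1 < t2 := by
      by_contra hn
      push Not at hn
      have := monotone_cdf μ hn
      rw [hF1, hF2] at this
      linarith
    have hd : 0 < t2 - t1 := sub_pos.2 ht12
    have hc : 0 < c2 - c1 := sub_pos.2 h12'
    set q : ℝ := (t2 - t1) / (c2 - c1) with hq
    have hq0 : 0 < q := div_pos hd hc
    -- the three chord inequalities
    have a1 : ∀ t, t1 ≤ t → t ≤ t2 → (c2 - c1) * (t - t1) ≤ (cdf μ t - c1) * (t2 - t1) := by
      intro t h5 h6
      rcases eq_or_lt_of_le h5 with h7 | h7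
      · rw [← h7, hF1]; simp
      rcases eq_or_lt_of_le h6 with h8 | h8
      · rw [h8, hF2]
      have := hconc.slope_anti_adjacent (x := t1) (y := t) (z := t2) ht1 ht2 h7 h8
      rw [hF1, hF2, div_le_div_iff₀ (sub_pos.2 h8) (sub_pos.2 h7)] at this
      nlinarith
    have a2 : ∀ t, t2 ≤ t → (cdf μ t - c1) * (t2 - t1) ≤ (c2 - c1) * (t - t1) := by
      intro t h5
      rcases eq_or_lt_of_le h5 with h7 | h7
      · rw [← h7, hF2]
      have := hconc.slope_anti_adjacent (x := t1) (y := t2) (z := t) ht1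
        (show mean μ ≤ t by linarith) ht12 h7
      rw [hF1, hF2, div_le_div_iff₀ (sub_pos.2 h7) hd] at this
      nlinarith
    have a3 : ∀ t, mean μ ≤ t → t ≤ t1 → (cdf μ t - c1) * (t2 - t1) ≤ (c2 - c1) * (t - t1) := by
      intro t h4 h5
      rcases eq_or_lt_of_le h5 with h7 | h7
      · rw [h7, hF1]; simp
      have := hconc.slope_anti_adjacent (x := t) (y := t1) (z := t2) h4 ht2 h7 ht12
      rw [hF1, hF2, div_le_div_iff₀ hd (sub_pos.2 h7)] at this
      nlinarith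
    have hqc : q * (c2 - c1) = t2 - t1 := by
      rw [hq]; field_simp
    -- the line
    have b1 : ∀ t, (c2 - c1) * (t - t1) ≤ (cdf μ t - c1) * (t2 - t1) →
        t - t1 ≤ q * (cdf μ t - c1) := by
      intro t h5
      rw [hq, div_mul_eq_mul_div, le_div_iff₀ hc]
      linarith
    have b2 : ∀ t, (cdf μ t - c1) * (t2 - t1) ≤ (c2 - c1) * (t - t1) →
        q * (cdf μ t - c1) ≤ t - t1 := by
      intro t h5
      rw [hq, div_mul_eq_mul_div, div_le_iff₀ hc]
      linarith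
    set p : ℝ := (t1 - mean μ) - q * (c1 - 1 / 2) with hp'
    have key : ∀ t, mean μ ≤ t → (t - mean μ) * φ (cdf μ t) ≤
        (p + q * (cdf μ t - 1 / 2)) * φ (cdf μ t) := by
      intro t ht
      have e : p + q * (cdf μ t - 1 / 2) = (t1 - mean μ) + q * (cdf μ t - c1) := by
        rw [hp']; ring
      rw [e]
      rcases le_total t t1 with h5 | h5
      · refine mul_le_mul_of_nonpos_right ?_ (s1 _ ⟨hF0 t ht, ?_⟩)
        · linarith [b2 t (a3 t ht h5)]
        · rw [← hF1]; exact monotone_cdf μ h5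
      rcases le_total t t2 with h6 | h6
      · refine mul_le_mul_of_nonneg_right ?_ (s2 _ ⟨?_, ?_⟩)
        · linarith [b1 t (a1 t h5 h6)]
        · rw [← hF1]; exact monotone_cdf μ h5
        · rw [← hF2]; exact monotone_cdf μ h6
      · refine mul_le_mul_of_nonpos_right ?_ (s3 _ ⟨?_, cdf_le_one μ t⟩)
        · linarith [b2 t (a2 t h6)]
        · rw [← hF2]; exact monotone_cdf μ h6
    refine (line_le h hφ hB hodd p q key).trans ?_
    have hp0 : p ≤ 0 := by
      have h5 := b2 _ (a3 (mean μ) le_rfl ht1)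
      rw [h.cdf_mean] at h5
      rw [hp']
      nlinarith
    have h8 : q * (∫ x in (1 / 2 : ℝ)..1, φ x * (x - 1 / 2)) ≤ 0 :=
      mul_nonpos_of_nonneg_of_nonpos hq0.le hm
    have h9 : p * (∫ x in (1 / 2 : ℝ)..1, φ x) ≤ 0 := by
      rcases h0 with h0 | h0
      · have : p = 0 := by
          rw [hp', hz h0, h0]; ring
        rw [this, zero_mul]
      · exact mul_nonpos_of_nonpos_of_nonneg hp0 h0
    linarith

end Pool.Agent.T9h61.KU
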